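import Pool.Agent.H43.G.R_seed8.H300R2.BH.Defs
import Pool.Agent.H43.G.R_seed8.Helper256.KM.Mertens

/-! Task G3 (helper300): upper bound for the truncated Euler product. -/

namespace Pool.Agent.H202R2.FB

open Finset Polynomial Filter
open Pool.Agent.H300R2.BH

theorem rho_le' (F : ℤ[X]) (p : ℕ) : rho F p ≤ p := by
  unfold rho
  exact (card_filter_le _ _).trans (by simp)

theorem factor_bd (F : ℤ[X]) {p : ℕ} (hp : p.Prime) :
    0 ≤ (1 - (rho F p : ℝ) / p) / (1 - 1 / (p : ℝ)) ∧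
      (1 - (rho F p : ℝ) / p) / (1 - 1 / (p : ℝ)) ≤
        Real.exp (1 / (p : ℝ) + 1 / ((p : ℝ) * ((p : ℝ) - 1))) := by
  have hp2 : (2:ℝ) ≤ p := by exact_mod_cast hp.two_le
  have hp0 : (0:ℝ) < p := by linarith
  have hp1 : (0:ℝ) < (p:ℝ) - 1 := by linarith
  have hden : 0 < 1 - 1 / (p:ℝ) := by
    rw [sub_pos, div_lt_one hp0]
    linarith
  have hr0 : 0 ≤ (rho F p : ℝ) / p := by positivity
  have hr1 : (rho F p : ℝ) / p ≤ 1 := by
    rw [div_le_one hp0]
    exact_mod_cast rho_le' F p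
  refine ⟨div_nonneg (by linarith) hden.le, ?_⟩
  have h1 : (1 - (rho F p : ℝ) / p) / (1 - 1 / (p : ℝ)) ≤ 1 / (1 - 1 / (p:ℝ)) :=
    div_le_div_of_nonneg_right (by linarith) hden.le
  have h2 : 1 / (1 - 1 / (p:ℝ)) = (1 / (p : ℝ) + 1 / ((p : ℝ) * ((p : ℝ) - 1))) + 1 := by
    field_simp
    ring
  rw [h2] at h1
  exact h1.trans (Real.add_one_le_exp _)

theorem sum_tel (z : ℕ) :
    ∑ n ∈ Icc 2 (z + 1), 1 / ((n : ℝ) * ((n : ℝ) - 1)) = 1 - 1 / ((z : ℝ) + 1) := by
  induction z with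
  | zero => simp
  | succ z ih =>
    rw [Finset.sum_Icc_succ_top (by omega), ih]
    push_cast
    have h1 : (z:ℝ) + 1 ≠ 0 := by positivity
    have h2 : (z:ℝ) + 1 + 1 ≠ 0 := by positivity
    have h3 : (z:ℝ) + 1 + 1 - 1 ≠ 0 := by
      rw [add_sub_cancel_right]; exact h1
    field_simp
    ring

theorem sum_two_le (z : ℕ) :
    ∑ p ∈ (Icc 1 z).filter Nat.Prime, 1 / ((p : ℝ) * ((p : ℝ) - 1)) ≤ 1 := by
  have h1 : (Icc 1 z).filter Nat.Prime ⊆ Icc 2 (z + 1) := by
    intro p hp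
    rw [mem_filter, mem_Icc] at hp
    rw [mem_Icc]
    exact ⟨hp.2.two_le, by omega⟩
  have h2 : ∑ p ∈ (Icc 1 z).filter Nat.Prime, 1 / ((p : ℝ) * ((p : ℝ) - 1)) ≤
      ∑ n ∈ Icc 2 (z + 1), 1 / ((n : ℝ) * ((n : ℝ) - 1)) := by
    apply Finset.sum_le_sum_of_subset_of_nonneg h1
    intro n hn _
    rw [mem_Icc] at hn
    have h3 : (2:ℝ) ≤ n := by exact_mod_cast hn.1
    have h4 : (0:ℝ) < (n:ℝ) * ((n:ℝ) - 1) := by
      apply mul_pos <;> linarith
    positivity
  rw [sum_tel] at h2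
  have h5 : (0:ℝ) ≤ 1 / ((z:ℝ) + 1) := by positivity
  linarith

/-- G3: upper bound for the truncated Euler product -/
theorem SS_upper : ∃ C : ℝ, ∀ z : ℕ, 3 ≤ z → ∀ F : ℤ[X], 0 ≤ SS z F ∧ SS z F ≤ C * Real.log z := by
  obtain ⟨C, hC⟩ := Pool.Agent.Helper256.KM.mertens_inv
  refine ⟨Real.exp (C + 1), fun z hz F => ?_⟩
  have hz3 : (3:ℝ) ≤ z := by exact_mod_cast hz
  have hlog1 : 1 ≤ Real.log z := by
    rw [Real.le_log_iff_exp_le (by linarith)]
    have := Real.exp_one_lt_d9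
    linarith
  have hlog : 0 < Real.log z := by linarith
  unfold SS
  constructor
  · apply Finset.prod_nonneg
    intro p hp
    rw [mem_filter] at hp
    exact (factor_bd F hp.2).1
  · calc ∏ p ∈ (Icc 1 z).filter Nat.Prime, (1 - (rho F p : ℝ) / p) / (1 - 1 / (p : ℝ))
        ≤ ∏ p ∈ (Icc 1 z).filter Nat.Prime,
            Real.exp (1 / (p : ℝ) + 1 / ((p : ℝ) * ((p : ℝ) - 1))) := by
          apply Finset.prod_le_prod
          · intro p hp
            rw [mem_filter] at hp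
            exact (factor_bd F hp.2).1
          · intro p hp
            rw [mem_filter] at hp
            exact (factor_bd F hp.2).2
      _ = Real.exp (∑ p ∈ (Icc 1 z).filter Nat.Prime,
            (1 / (p : ℝ) + 1 / ((p : ℝ) * ((p : ℝ) - 1)))) := (Real.exp_sum _ _).symm
      _ ≤ Real.exp ((C + 1) + Real.log (Real.log z)) := by
          apply Real.exp_le_exp.2
          rw [Finset.sum_add_distrib]
          have h1 := (abs_le.1 (hC z hz)).2
          have h2 := sum_two_le z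
          linarith
      _ = Real.exp (C + 1) * Real.log z := by
          rw [Real.exp_add, Real.exp_log hlog]

end Pool.Agent.H202R2.FB
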